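import Mathlib

/-!
# Mu-invariants of Iwasawa cohomology: data and known facts
-/

namespace Pool.Agent.N522.MU

/-- Number fields and finite Galois modules killed by `p`, for a fixed odd prime `p`. -/
structure Theory where
  /-- number fields -/
  Fld : Type
  /-- `L ⊆ L'` -/
  Sub : Fld → Fld → Prop
  /-- `L ⊆ L'` and `L'` is a Galois extension of `L` of degree a power of `p` -/
  PExt : Fld → Fld → Prop
  /-- `L` contains the `p`-th roots of unity -/
  Mu : Fld → Prop
  /-- `L` is an abelian extension of `ℚ` -/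
  Abelian : Fld → Prop
  /-- finite `𝔽_p[G_L]`-modules -/
  Mod : Fld → Type
  /-- `0 → M' → M → M'' → 0` is exact -/
  Ex : ∀ {L : Fld}, Mod L → Mod L → Mod L → Prop
  /-- restriction to `L'`, for `L ⊆ L'` (any value otherwise) -/
  rest : ∀ {L : Fld} (L' : Fld), Mod L → Mod L'
  /-- the zero module -/
  zero : ∀ L : Fld, Mod L
  /-- `𝔽_p` with trivial action -/
  triv : ∀ L : Fld, Mod L
  /-- `𝔽_p(1) = μ_p` -/
  muMod : ∀ L : Fld, Mod L
  /-- `H²_Iw(𝒪_{L,S}, M)` is finite for large `S` (equivalently for all `S` allowed) -/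
  Fin : ∀ {L : Fld}, Mod L → Prop
  /-- the data `(K, L, T, S, Σ)` of Q1 -/
  Dat : Type
  /-- the field `L` -/
  top : Dat → Fld
  /-- the residual module `T/π` over `L` -/
  res : (D : Dat) → Mod (top D)
  /-- `H²_{Σ,Iw}(𝒪_{L,S}, T)` is torsion with `μ = 0` -/
  Holds : Dat → Prop

variable {T : Theory}

/-- Successive extensions of modules with property `P`. -/
inductive Dev {L : T.Fld} (P : T.Mod L → Prop) : T.Mod L → Prop
  | zero : Dev P (T.zero L)
  | base (M : T.Mod L) : P M → Dev P M
  | ext (M' M M'' : T.Mod L) : T.Ex M' M M'' → Dev P M' → Dev P M'' → Dev P M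

/-- Q1 -/
def Q1 (T : Theory) : Prop := ∀ D : T.Dat, T.Holds D

/-- Iwasawa's conjecture on `μ = 0` for the cyclotomic extension of `L` -/
def IwasawaMu (L : T.Fld) : Prop := T.Fin (T.muMod L)

/-- Known facts. -/
structure Facts (T : Theory) : Prop where
  /-- the zero module -/
  fin_zero : ∀ L : T.Fld, T.Fin (T.zero L)
  /-- `H²` is right exact in Iwasawa cohomology for `p` odd -/
  ext : ∀ (L : T.Fld) (M' M M'' : T.Mod L), T.Ex M' M M'' → T.Fin M' → T.Fin M'' → T.Fin M
  /-- corestriction is surjective on `H²` -/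
  cores : ∀ (L L' : T.Fld) (M : T.Mod L), T.Sub L L' → T.Fin (T.rest L' M) → T.Fin M
  /-- Iwasawa: `μ = 0` is inherited by `p`-extensions (Shapiro's lemma) -/
  up : ∀ (L L' : T.Fld), T.PExt L L' → T.Fin (T.muMod L) → T.Fin (T.muMod L')
  /-- over a field that contains the roots of unity -/
  mu : ∀ L : T.Fld, T.Mu L → T.muMod L = T.triv L
  /-- `p`-extensions of fields with `p`-th roots of unity -/
  mu_up : ∀ L L' : T.Fld, T.PExt L L' → T.Mu L → T.Mu L'
  /-- there is a finite extension that contains the roots of unity and over which the module is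
  a successive extension of trivial ones -/
  split : ∀ (L : T.Fld) (M : T.Mod L), ∃ L', T.Sub L L' ∧ T.Mu L' ∧
    Dev (fun N => N = T.triv L') (T.rest L' M)
  /-- `H²(T)/π = H²(T/π)` and Nakayama's lemma; independence of `S` and `Σ` -/
  criterion : ∀ D : T.Dat, T.Holds D ↔ T.Fin (T.res D)
  /-- the datum `K = L`, `T = ℤ_p(1)`; here the assertion is `μ = 0` -/
  cyclotomic : ∀ L : T.Fld, ∃ D : T.Dat, T.Holds D ↔ IwasawaMu L
  /-- Ferrero-Washington -/
  ferrero : ∀ L : T.Fld, T.Abelian L → IwasawaMu L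

theorem fin_of_dev (F : Facts T) {L : T.Fld} (M : T.Mod L) (h : Dev (fun N => T.Fin N) M) :
    T.Fin M := by
  induction h with
  | zero => exact F.fin_zero L
  | base M h => exact h
  | ext M' M M'' h _ _ h1 h2 => exact F.ext L M' M M'' h h1 h2

theorem fin_of_unipotent (F : Facts T) (L L' : T.Fld) (M : T.Mod L) (h : T.Sub L L')
    (hm : T.Mu L') (hI : IwasawaMu L') (hM : Dev (fun N => N = T.triv L') (T.rest L' M)) :
    T.Fin M := by
  refine F.cores L L' M h (fin_of_dev F _ ?_)
  have key : ∀ N : T.Mod L', Dev (fun N => N = T.triv L') N → Dev (fun N => T.Fin N) N := by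
    intro N hN
    induction hN with
    | zero => exact Dev.zero
    | base N h =>
      refine Dev.base N ?_
      have e : N = T.triv L' := h
      rw [e, ← F.mu L' hm]
      exact hI
    | ext M' M M'' h _ _ h1 h2 => exact Dev.ext M' M M'' h h1 h2
  exact key _ hM

theorem q1_iff (F : Facts T) : Q1 T ↔ ∀ L : T.Fld, IwasawaMu L := by
  refine ⟨fun h L => ?_, fun h D => ?_⟩
  · obtain ⟨D, hD⟩ := F.cyclotomic L
    exact hD.1 (h D)
  · obtain ⟨L', h1, h2, h3⟩ := F.split _ (T.res D)
    exact (F.criterion D).2 (fin_of_unipotent F _ L' _ h1 h2 (h L') h3)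

/-- Residually unipotent modules over `p`-extensions of abelian fields. -/
theorem holds_of_abelian (F : Facts T) (D : T.Dat) (A L' : T.Fld) (hA : T.Abelian A)
    (hm : T.Mu A) (hp : T.PExt A L') (h : T.Sub (T.top D) L')
    (hM : Dev (fun N => N = T.triv L') (T.rest L' (T.res D))) : T.Holds D :=
  (F.criterion D).2 (fin_of_unipotent F _ L' _ h (F.mu_up A L' hp hm)
    (F.up A L' hp (F.ferrero A hA)) hM)

end Pool.Agent.N522.MU
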